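import Mathlib

/-!
# Positive square energy: definitions

Everything happens on one finite vertex type `V`; graphs live on a subset `Z` of `V`.
-/

set_option autoImplicit false

open Finset Matrix

namespace Pool.SQE

variable {V : Type} [Fintype V] [DecidableEq V]

/-- Frobenius inner product -/
def ip (X Y : Matrix V V ℝ) : ℝ := ∑ i, ∑ j, X i j * Y i j

/-- squared Frobenius norm -/
def nsq (X : Matrix V V ℝ) : ℝ := ip X X

/-- `A = P - N` is the decomposition of `A` into its positive and negative parts -/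
structure Dec (A P N : Matrix V V ℝ) : Prop where
  posP : P.PosSemidef
  posN : N.PosSemidef
  eq : A = P - N
  mul : P * N = 0

open Classical in
/-- the positive part of a symmetric matrix -/
noncomputable def pos (A : Matrix V V ℝ) : Matrix V V ℝ :=
  if h : ∃ P N, Dec A P N then h.choose else 0

/-- the negative part of a symmetric matrix -/
noncomputable def neg (A : Matrix V V ℝ) : Matrix V V ℝ := pos A - A

/-- the positive square energy of a symmetric matrix -/
noncomputable def sp (A : Matrix V V ℝ) : ℝ := nsq (pos A)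

open Classical in
/-- the adjacency matrix of a graph -/
noncomputable def ad (G : SimpleGraph V) : Matrix V V ℝ := fun i j => if G.Adj i j then 1 else 0

/-- `B` with the rows and columns in `S` replaced by zero -/
def del (A : Matrix V V ℝ) (S : Finset V) : Matrix V V ℝ :=
  fun i j => if i ∈ S ∨ j ∈ S then 0 else A i j

/-- the block `C` of the symmetric matrix `B` is bipartite -/
def Bip (B : Matrix V V ℝ) (C : Finset V) : Prop :=
  ∃ ε : V → ℝ, (∀ x, ε x = 1 ∨ ε x = -1) ∧ ∀ x ∈ C, ∀ y ∈ C, B x y ≠ 0 → ε y = -ε x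

/-- a column of the resolvent: `(B - i y) x = e_w` -/
def IsRes (B : Matrix V V ℝ) (y : ℝ) (w : V) (x : V → ℂ) : Prop :=
  ∀ i, ∑ j, (B i j : ℂ) * x j - (y : ℂ) * Complex.I * x i = if i = w then 1 else 0

/-- the subgraph of the edges inside `Y` -/
def rs (G : SimpleGraph V) (Y : Finset V) : SimpleGraph V where
  Adj x y := G.Adj x y ∧ x ∈ Y ∧ y ∈ Y
  symm := ⟨fun _ _ h => ⟨h.1.symm, h.2.2, h.2.1⟩⟩
  loopless := ⟨fun _ h => G.loopless.irrefl _ h.1⟩

/-- `G` is a connected graph with vertex set `Z` -/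
structure CG (G : SimpleGraph V) (Z : Finset V) : Prop where
  ne : Z.Nonempty
  sub : ∀ x y, G.Adj x y → x ∈ Z
  conn : ∀ x ∈ Z, ∀ y ∈ Z, G.Reachable x y

/-- number of ordered pairs of adjacent vertices -/
noncomputable def na (G : SimpleGraph V) : ℕ := Set.ncard {p : V × V | G.Adj p.1 p.2}

/-- `G` restricted to `S` is a tree with vertex set `S` -/
structure Tr (G : SimpleGraph V) (S : Finset V) : Prop where
  cg : CG (rs G S) S
  acyc : (rs G S).IsAcyclic

/-- the shape of a connected graph with a cycle near an end block of its cyclic part: `c` is the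
port of the rest, `L` is the set of the other vertices of the block, `S v` is `v` together with
the tree hanging at `v` -/
structure Str (G : SimpleGraph V) (Z : Finset V) (c : V) (L : Finset V) (S : V → Finset V) :
    Prop where
  cZ : c ∈ Z
  cL : c ∉ L
  mem : ∀ v ∈ L, v ∈ S v
  sub : ∀ v ∈ L, S v ⊆ Z
  cS : ∀ v ∈ L, c ∉ S v
  disj : ∀ v ∈ L, ∀ w ∈ L, v ≠ w → Disjoint (S v) (S w)
  out : ∀ v ∈ L, ∀ x ∈ S v, ∀ y, G.Adj x y → y ∉ S v → x = v ∧ (y = c ∨ y ∈ L)
  tree : ∀ v ∈ L, Tr G (S v)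
  co : ∀ v ∈ L, CG (rs G (S v)ᶜ) (Z \ S v)
  two : 2 ≤ L.card
  Lconn : ∀ v ∈ L, ∀ w ∈ L, (rs G L).Reachable v w
  Lc : ∀ v ∈ L, ∀ w ∈ L, w ≠ v → (rs G (insert c (L.erase v))).Reachable w c

/-- four bordered blocks: ports `a, d, b` of bipartite blocks and the port `c` of the rest, edges
`c a`, `c b`, `d b` of weight one and `a d` of weight `t` -/
structure C4 (B : Matrix V V ℝ) (t : ℝ) (Sa Sd Sb : Finset V) (a d b c : V) : Prop where
  symm : B.IsSymm
  dad : Disjoint Sa Sd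
  dab : Disjoint Sa Sb
  ddb : Disjoint Sd Sb
  ha : a ∈ Sa
  hd : d ∈ Sd
  hb : b ∈ Sb
  ca : c ∉ Sa
  cd : c ∉ Sd
  cb : c ∉ Sb
  ea : ∀ x ∈ Sa, ∀ y, y ∉ Sa → B x y ≠ 0 → x = a ∧ (y = c ∨ y = d)
  ed : ∀ x ∈ Sd, ∀ y, y ∉ Sd → B x y ≠ 0 → x = d ∧ (y = a ∨ y = b)
  eb : ∀ x ∈ Sb, ∀ y, y ∉ Sb → B x y ≠ 0 → x = b ∧ (y = c ∨ y = d)
  vac : B a c = 1
  vbc : B b c = 1
  vdb : B d b = 1
  vad : B a d = t
  bipa : Bip B Sa
  bipd : Bip B Sd
  bipb : Bip B Sb

open Classical in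
/-- four blocks of `A` joined by edges of weight `4 / 3` between the ports -/
noncomputable def thB (A : Matrix V V ℝ) (S : Fin 4 → Finset V) (v : Fin 4 → V)
    (τ : Finset (Fin 4 × Fin 4)) : Matrix V V ℝ :=
  fun x y => if ∃ i, x ∈ S i ∧ y ∈ S i then A x y
    else if ∃ i j, (i, j) ∈ τ ∧ x = v i ∧ y = v j then 4 / 3 else 0

/-- the path on four vertices -/
def pathT : Finset (Fin 4 × Fin 4) := {(0, 1), (1, 0), (1, 2), (2, 1), (2, 3), (3, 2)}

/-- the star on four vertices -/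
def starT : Finset (Fin 4 × Fin 4) := {(0, 1), (1, 0), (0, 2), (2, 0), (0, 3), (3, 0)}

/-- four blocks with ports -/
structure Four (A : Matrix V V ℝ) (S : Fin 4 → Finset V) (v : Fin 4 → V) : Prop where
  symm : A.IsSymm
  hv : ∀ i, v i ∈ S i
  disj : ∀ i j, i ≠ j → Disjoint (S i) (S j)
  cross : ∀ i j, i ≠ j → ∀ x ∈ S i, ∀ y ∈ S j, A x y ≠ 0 → x = v i ∧ y = v j
  port : ∀ i j, i ≠ j → 0 ≤ A (v i) (v j)
  card : ∀ i, ∑ x ∈ S i, ∑ y ∈ S i, A x y ^ 2 = 2 * (((S i).card : ℝ) - 1)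
  bip : ∀ i, Bip A (S i)
  star : ∀ i, (∑ x, ∑ y, if x ∈ S i ∨ y ∈ S i then pos A x y ^ 2 else 0) ≤ ((S i).card : ℝ)

/-- minimality: the theorem holds for all smaller connected graphs -/
def IHyp (n : ℕ) : Prop := ∀ (G : SimpleGraph V) (Z : Finset V), CG G Z → Z.card + na G < n →
  (Z.card : ℝ) - 1 ≤ sp (ad G) ∧ (¬ G.IsAcyclic → (Z.card : ℝ) - 1 < sp (ad G))

end Pool.SQE
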